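import Mathlib
import Pool.Agent.H50.Sdef1

namespace Pool.Agent.Results.MP_a342dd_al.Counter

open MvPolynomial Pool.Agent.H50.Sdef Pointwise

/-- The symbolic power over all associated primes: `⋂_{p ∈ Ass(R/I)} (I^n R_p ∩ R)`. -/
noncomputable def symb {R : Type} [CommRing R] (I : Ideal R) (n : ℕ) : Ideal R :=
  ⨅ (p : PrimeSpectrum R) (_ : p.asIdeal ∈ associatedPrimes R (R ⧸ I)),
    ((I ^ n).map (algebraMap R (Localization.AtPrime p.asIdeal))).comap
      (algebraMap R (Localization.AtPrime p.asIdeal))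

/-- `dim_k A / (A ∩ B)` for ideals `A`, `B` of a `k`-algebra. -/
noncomputable def qdim (k : Type) [Field k] {R : Type} [CommRing R] [Algebra k R]
    (A B : Ideal R) : ℕ :=
  Module.finrank k (A.restrictScalars k ⧸ (B.restrictScalars k).comap (A.restrictScalars k).subtype)

/-- The symbolic defect `dim_k I^(n) / (I^n + 𝔪 I^(n))`. -/
noncomputable def sdef {k : Type} [Field k] {r : ℕ} (I : Ideal (MvPolynomial (Fin r) k)) (n : ℕ) :
    ℕ :=
  qdim k (symb I n) (I ^ n + Ideal.span (Set.range X) * symb I n)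

/-- The monomial ideal `(y^3, xyz, xy^2, x^2z)` of `k[x, y, z]`. -/
noncomputable def J (k : Type) [Field k] : Ideal (MvPolynomial (Fin 3) k) :=
  Ideal.span {X 1 ^ 3, X 0 * X 1 * X 2, X 0 * X 1 ^ 2, X 0 ^ 2 * X 2}

variable (k : Type) [Field k]

lemma J_eq : J k = Mo k (Gn 1) := by
  have : Gn 1 = {ex 0 3 0, ex 1 1 1, ex 1 2 0, ex 2 0 1} := by
    ext m
    simp only [Gn, Set.mem_ofPred_eq, Set.mem_insert_iff, Set.mem_singleton_iff]
    constructor
    · rintro ⟨a, b, c, d, h, rfl⟩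
      simp only [ex_ext, ex0, ex1, ex2]; omega
    · rintro (rfl | rfl | rfl | rfl)
      exacts [⟨1, 0, 0, 0, rfl, rfl⟩, ⟨0, 1, 0, 0, rfl, rfl⟩, ⟨0, 0, 1, 0, rfl, rfl⟩,
        ⟨0, 0, 0, 1, rfl, rfl⟩]
  simp [J, Mo, this, Set.image_insert_eq, ← mono_eq]

lemma memJ (n : ℕ) (p : MvPolynomial (Fin 3) k) :
    p ∈ J k ^ n ↔ ∀ m ∈ p.support, pw n (m 0) (m 1) (m 2) := by
  rw [J_eq, pow_eq, memG]

lemma shift {n : ℕ} {e : Ex} {p : MvPolynomial (Fin 3) k} : monomial e 1 * p ∈ J k ^ n ↔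
    ∀ m ∈ p.support, pw n (m 0 + e 0) (m 1 + e 1) (m 2 + e 2) := by
  classical
  rw [memJ]
  refine ⟨fun h m hm => ?_, fun h m hm => ?_⟩
  · simpa [add_comm] using h (e + m) (by
      rwa [mem_support_iff, coeff_monomial_mul, one_mul, ← mem_support_iff])
  · obtain ⟨a, ha, b, hb, rfl⟩ := Finset.mem_add.1 (support_mul _ _ hm)
    obtain rfl : a = e := by simpa [support_monomial] using ha
    simpa [add_comm] using h b hb

lemma X_eq : (X 0 : MvPolynomial (Fin 3) k) = monomial (ex 1 0 0) 1 ∧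
    (X 1 : MvPolynomial (Fin 3) k) = monomial (ex 0 1 0) 1 ∧
    (X 2 : MvPolynomial (Fin 3) k) = monomial (ex 0 0 1) 1 := by
  simp [← mono_eq]

lemma mem_col (r g : MvPolynomial (Fin 3) k) :
    r ∈ (⊥ : Submodule (MvPolynomial (Fin 3) k) (_ ⧸ J k)).colon {Ideal.Quotient.mk (J k) g} ↔
      r * g ∈ J k ^ 1 := by
  rw [Submodule.mem_colon_singleton, Submodule.mem_bot, pow_one, ← Ideal.Quotient.eq_zero_iff_mem]
  rfl

lemma ass1 {p : Ideal (MvPolynomial (Fin 3) k)} (h : p ∈ associatedPrimes _ (_ ⧸ J k)) :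
    X 2 ∉ p ∨ X 0 ∉ p := by
  obtain ⟨h1, g, rfl⟩ := isAssociatedPrime_iff.1 h
  obtain ⟨g, rfl⟩ := Ideal.Quotient.mk_surjective g
  by_contra h2
  push Not at h2
  rw [mem_col, mem_col, (X_eq k).1, (X_eq k).2.2, shift, shift] at h2
  refine h1.ne_top ((Ideal.eq_top_iff_one _).2 ?_)
  rw [mem_col, one_mul, memJ]
  exact fun m hm => socle (h2.2 m hm) (h2.1 m hm)

lemma ass2 (i : Fin 3) (e : Ex) (h0 : ¬ pw 1 (e 0) (e 1) (e 2))
    (h : ∀ j ≠ i, X j * monomial e (1 : k) ∈ J k ^ 1) {n : ℕ} {f : MvPolynomial (Fin 3) k}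
    (hf : f ∈ symb (J k) n) :
    ∃ s, (∃ a ∈ s.support, ∀ j ≠ i, a j = 0) ∧ s * f ∈ J k ^ n := by
  classical
  obtain ⟨P, h1, h2⟩ := exists_le_isAssociatedPrime_of_isNoetherianRing (MvPolynomial (Fin 3) k)
    (Ideal.Quotient.mk (J k) (monomial e 1)) (fun h3 => h0 ((memJ k 1 _).1
      (by rw [pow_one]; exact Ideal.Quotient.eq_zero_iff_mem.1 h3) e (by simp [support_monomial])))
  have h3 := Submodule.mem_iInf _ |>.1 (Submodule.mem_iInf _ |>.1 hf ⟨P, h1.toIsPrime⟩) h1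
  have := h1.toIsPrime
  obtain ⟨s, h4, h5⟩ := (IsLocalization.algebraMap_mem_map_algebraMap_iff P.primeCompl _ _ _).1 h3
  refine ⟨s, by_contra fun h6 => h4 ?_, h5⟩
  push Not at h6
  refine (Ideal.span_le.2 ?_ : Ideal.span (X '' {j | j ≠ i}) ≤ P) (mem_ideal_span_X_image.2 h6)
  rintro _ ⟨j, hj, rfl⟩
  exact h2 ((mem_col k _ _).2 (h j hj))

lemma memS (n : ℕ) (f : MvPolynomial (Fin 3) k) :
    f ∈ symb (J k) n ↔ ∀ m ∈ f.support, A n (m 0) (m 1) (m 2) := by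
  classical
  refine ⟨fun hf m hm => ?_, fun h => Submodule.mem_iInf _ |>.2 fun p =>
    Submodule.mem_iInf _ |>.2 fun hp =>
      (IsLocalization.algebraMap_mem_map_algebraMap_iff p.asIdeal.primeCompl _ _ _).2 ?_⟩
  · obtain ⟨s, ⟨a, h1, h2⟩, h3⟩ := ass2 k 2 (ex 1 0 1) (by rintro ⟨a, b, c, d, h⟩; simp at h; omega)
      (fun j hj => by
        fin_cases j
        · exact (X_eq k).1 ▸ (shift k).2 (by simpa [support_monomial] using ⟨0, 0, 0, 1, by omega⟩)
        · exact (X_eq k).2.1 ▸ (shift k).2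
            (by simpa [support_monomial] using ⟨0, 1, 0, 0, by omega⟩)
        · exact (hj rfl).elim) hf
    obtain ⟨t, ⟨b, h4, h5⟩, h6⟩ := ass2 k 0 (ex 1 1 0) (by rintro ⟨a, b, c, d, h⟩; simp at h; omega)
      (fun j hj => by
        fin_cases j
        · exact (hj rfl).elim
        · exact (X_eq k).2.1 ▸ (shift k).2
            (by simpa [support_monomial] using ⟨0, 0, 1, 0, by omega⟩)
        · exact (X_eq k).2.2 ▸ (shift k).2
            (by simpa [support_monomial] using ⟨0, 1, 0, 0, by omega⟩)) hf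
    have e1 := prim (fun m => toLex (-(m 0 + m 1 : ℤ), toLex (m 0, m 2))) (fun a => a 0 + a 1 = 0)
      (fun m => 2 * n ≤ m 0 + m 1 ∧ 3 * n ≤ 2 * m 0 + m 1)
      (fun _ _ _ _ => by simp [Prod.Lex.toLex_le_toLex, ex_ext]; omega)
      (fun _ _ => by simp [Prod.Lex.toLex_le_toLex]; omega) (fun _ _ => by simp; omega)
      (fun _ _ => by simp; omega) ⟨a, h1, by simp [h2]⟩ (fun m hm => by
        obtain ⟨a, b, c, d, h⟩ := (memJ k n _).1 h3 m hm; omega) m hm
    have e2 := prim (fun m => toLex (-(m 2 + m 1 : ℤ), toLex (m 0, m 2))) (fun a => a 2 + a 1 = 0)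
      (fun m => 2 * n ≤ m 1 + 2 * m 2)
      (fun _ _ _ _ => by simp [Prod.Lex.toLex_le_toLex, ex_ext]; omega)
      (fun _ _ => by simp [Prod.Lex.toLex_le_toLex]; omega) (fun _ _ => by simp; omega)
      (fun _ _ => by simp; omega) ⟨b, h4, by simp [h5]⟩ (fun m hm => by
        obtain ⟨a, b, c, d, h⟩ := (memJ k n _).1 h6 m hm; omega) m hm
    exact ⟨e1.1, e1.2, e2⟩
  · rcases ass1 k hp with h1 | h1
    · refine ⟨X 2 ^ n, pow_mem (show X 2 ∈ p.asIdeal.primeCompl from h1) n, ?_⟩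
      rw [X_pow_eq_monomial, shift]
      exact fun m hm => by simpa using pw1 (h m hm)
    · refine ⟨X 0 ^ (2 * n), pow_mem (show X 0 ∈ p.asIdeal.primeCompl from h1) _, ?_⟩
      rw [X_pow_eq_monomial, shift]
      exact fun m hm => by simpa using pw2 (h m hm)

lemma sdef_eq {n : ℕ} (hn : 1 ≤ n) (T : Finset ℕ) (hT : ∀ y, y ∈ T ↔ Y n y) :
    sdef (J k) n = T.card := by
  classical
  have h1 : symb (J k) n = Mo k {m | A n (m 0) (m 1) (m 2)} := by
    ext f
    rw [memS, Mo, mem_ideal_span_monomial_image]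
    refine forall₂_congr fun m _ => ⟨fun h => ⟨m, h, le_rfl⟩, fun ⟨s, h, h'⟩ => ?_⟩
    rw [ex_le] at h'
    simp only [A, Set.mem_ofPred_eq] at h ⊢; omega
  have h2 : Ideal.span (Set.range X) = Mo k {ex 1 0 0, ex 0 1 0, ex 0 0 1} := by
    rw [Mo]; congr 1
    ext p
    simp [Set.image_insert_eq, ← mono_eq, Fin.exists_fin_succ, eq_comm]
  rw [← Finset.card_image_of_injective T (f := fun y =>
    ex (max (2 * n - y) ((3 * n - y + 1) / 2)) y ((2 * n - y + 1) / 2))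
    fun y y' h => (ex_ext.1 h).2.1]
  refine dim _ (memS k n) (b := fun m => pw n (m 0) (m 1) (m 2) ∨
    (1 ≤ m 0 ∧ A n (m 0 - 1) (m 1) (m 2)) ∨ (1 ≤ m 1 ∧ A n (m 0) (m 1 - 1) (m 2)) ∨
    (1 ≤ m 2 ∧ A n (m 0) (m 1) (m 2 - 1))) (fun p => ?_) fun m => ?_
  · rw [Submodule.restrictScalars_mem, h1, h2, Mo_mul, J_eq, pow_eq, Ideal.add_eq_sup, Mo, Mo,
      ← Ideal.span_union, ← Set.image_union, mem_ideal_span_monomial_image]
    refine forall₂_congr fun m _ => ⟨?_, ?_⟩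
    · rintro ⟨s, ⟨a, b, c, d, h, rfl⟩ | ⟨_, rfl | rfl | rfl, t, ht, rfl⟩, h'⟩ <;> rw [ex_le] at h'
      · exact .inl ⟨a, b, c, d, h, h'⟩
      all_goals
        right
        simp [A] at h' ht ⊢
        omega
    · rintro (⟨a, b, c, d, h, h'⟩ | h | h | h)
      · exact ⟨_, .inl ⟨a, b, c, d, h, rfl⟩, ex_le.2 h'⟩
      · exact ⟨_, .inr ⟨ex 1 0 0, by simp, ex (m 0 - 1) (m 1) (m 2), h.2, rfl⟩,
          by simp [ex_le]; omega⟩
      · exact ⟨_, .inr ⟨ex 0 1 0, by simp, ex (m 0) (m 1 - 1) (m 2), h.2, rfl⟩,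
          by simp [ex_le]; omega⟩
      · exact ⟨_, .inr ⟨ex 0 0 1, by simp, ex (m 0) (m 1) (m 2 - 1), h.2, rfl⟩,
          by simp [ex_le]; omega⟩
  · rw [← char hn, Finset.mem_image]
    constructor
    · rintro ⟨y, hy, rfl⟩
      exact ⟨rfl, rfl, (hT y).1 hy⟩
    · exact fun h => ⟨m 1, (hT _).2 h.2.2, ex_ext.2 ⟨h.1.symm, rfl, h.2.1.symm⟩⟩

lemma card_eq (B C r : ℕ) (h : B < C) :
    (Finset.Icc 2 B ∪ (Finset.range r).image fun j => C + 2 * j).card = B - 1 + r := by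
  rw [Finset.card_union_of_disjoint, Finset.card_image_of_injective _ fun a b h => by simpa using h]
  · simp
  · simp [Finset.disjoint_left]; omega

theorem result (k : Type) [Field k] (m : ℕ) (hm : 1 ≤ m) :
    sdef (J k) (2 * m) = 4 * m - 2 ∧ sdef (J k) (2 * m + 1) = 5 * m + 1 := by
  constructor
  · rw [sdef_eq k (by omega) (Finset.Icc 2 (2 * m) ∪
      (Finset.range (2 * m - 1)).image fun j => 2 * m + 2 + 2 * j) fun y => ?_,
      card_eq _ _ _ (by omega)]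
    · omega
    · simp only [Y, Finset.mem_union, Finset.mem_Icc, Finset.mem_image, Finset.mem_range]
      refine ⟨by rintro (h | ⟨j, h, rfl⟩) <;> omega, fun h => ?_⟩
      by_cases h1 : y ≤ 2 * m
      · omega
      · exact .inr ⟨(y - 2 * m - 2) / 2, by omega⟩
  · rw [sdef_eq k (by omega) (Finset.Icc 2 (4 * m + 2) ∪
      (Finset.range m).image fun j => 4 * m + 3 + 2 * j) fun y => ?_, card_eq _ _ _ (by omega)]
    · omega
    · simp only [Y, Finset.mem_union, Finset.mem_Icc, Finset.mem_image, Finset.mem_range]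
      refine ⟨by rintro (h | ⟨j, h, rfl⟩) <;> omega, fun h => ?_⟩
      by_cases h1 : y ≤ 4 * m + 2
      · omega
      · exact .inr ⟨(y - 4 * m - 3) / 2, by omega⟩

end Pool.Agent.Results.MP_a342dd_al.Counter
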